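import Pool.Agent.Lib.MP_bd0f13_lc.Abs

/-!
# The robust gadget, abstractly

Every group has four men and four women. The men `(v, 0), (v, 1), (v, 2)` and the women
`(v, 0), (v, 1), (v, 2)` encode the colour, the man `(v, 3)` is a guard of the woman `(v, 0)`.
-/

namespace Pool.Agent.Lib.MP_bd0f13_lc.Rob

/-- position of the woman `a` of the own group in the list of a man of type `i` -/
def rho : Fin 4 → Fin 4 → ℕ := ![![1, 0, 2, 3], ![2, 0, 1, 3], ![1, 2, 0, 3], ![0, 2, 3, 1]]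

/-- order of the men `a` of the own group in the list of a woman of type `j` -/
def rhoW : Fin 4 → Fin 4 → ℕ := ![![0, 1, 2, 3], ![0, 1, 2, 3], ![0, 1, 2, 3], ![1, 2, 3, 0]]

/-- the three internal matchings of a group (man ↦ woman) -/
def tau : Fin 3 → Fin 4 → Fin 4 := ![![0, 1, 2, 3], ![1, 0, 2, 3], ![1, 2, 0, 3]]

/-- their inverses (woman ↦ man) -/
def tau' : Fin 3 → Fin 4 → Fin 4 := ![![0, 1, 2, 3], ![1, 0, 2, 3], ![2, 0, 1, 3]]

/-- potential of the envy among the men of a group -/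
def phi : Fin 3 → Fin 4 → ℕ := ![![1, 0, 0, 2], ![0, 1, 0, 2], ![0, 1, 2, 3]]

lemma tau_tau' : ∀ c j, tau c (tau' c j) = j := by decide
lemma tau'_tau : ∀ c j, tau' c (tau c j) = j := by decide
lemma tau'_zero : ∀ c : Fin 3, tau' c 0 = c.castSucc := by decide
lemma tau_castSucc : ∀ c : Fin 3, tau c c.castSucc = 0 := by decide

lemma phi_lt : ∀ c i i', rho i (tau c i') < rho i (tau c i) → phi c i' < phi c i := by
  decide +kernel

lemma rhoW_lt : ∀ c j j', rhoW j (tau' c j') < rhoW j (tau' c j) → tau' c j' < tau' c j := by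
  decide +kernel

lemma rho_guard : ∀ a, a ≠ 0 → rho 3 0 < rho 3 a := by decide

lemma key4 : ∀ a b c d : Fin 4, a ≠ b → a ≠ c → a ≠ d → b ≠ c → b ≠ d → c ≠ d →
    (∀ i j, ¬ ((rho i (![a, b, c, d] j) < rho i (![a, b, c, d] i) ∧
        rho j (![a, b, c, d] i) < rho j (![a, b, c, d] j)) ∨
      (rhoW (![a, b, c, d] i) j < rhoW (![a, b, c, d] i) i ∧
        rhoW (![a, b, c, d] j) i < rhoW (![a, b, c, d] j) j))) →
    (a = 0 ∧ b = 1 ∧ c = 2 ∧ d = 3) ∨ (a = 1 ∧ b = 0 ∧ c = 2 ∧ d = 3) ∨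
      (a = 1 ∧ b = 2 ∧ c = 0 ∧ d = 3) := by decide +kernel

/-- the perfect matchings of a group without blocking pair -/
lemma exists_eq_tau : ∀ s : Fin 4 → Fin 4, (∀ i j, s i = s j → i = j) →
    (∀ i j, ¬ ((rho i (s j) < rho i (s i) ∧ rho j (s i) < rho j (s j)) ∨
      (rhoW (s i) j < rhoW (s i) i ∧ rhoW (s j) i < rhoW (s j) j))) →
    ∃ c, s = tau c := by
  intro s hs h
  have hv : ![s 0, s 1, s 2, s 3] = s := by
    funext i; fin_cases i <;> rfl
  have hne : ∀ i j, i ≠ j → s i ≠ s j := fun i j hij h1 => hij (hs i j h1)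
  rcases key4 (s 0) (s 1) (s 2) (s 3) (hne _ _ (by decide)) (hne _ _ (by decide))
    (hne _ _ (by decide)) (hne _ _ (by decide)) (hne _ _ (by decide)) (hne _ _ (by decide))
    (by rw [hv]; exact h) with ⟨h0, h1, h2, h3⟩ | ⟨h0, h1, h2, h3⟩ | ⟨h0, h1, h2, h3⟩
  · exact ⟨0, by rw [← hv, h0, h1, h2, h3]; rfl⟩
  · exact ⟨1, by rw [← hv, h0, h1, h2, h3]; rfl⟩
  · exact ⟨2, by rw [← hv, h0, h1, h2, h3]; rfl⟩

variable {V : Type}

/-- the man `m` of type 0, 1 or 2 belongs to a neighbour of the vertex of the woman `w` of type 0 -/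
def Ins (G : SimpleGraph V) (w m : V × Fin 4) : Prop := w.2 = 0 ∧ m.2 ≠ 3 ∧ G.Adj w.1 m.1

/-- order of the foreign women in the lists of the men: type 0 last, then by the vertex -/
def lt2 [LinearOrder V] (x y : V × Fin 4) : Prop :=
  (x.2 ≠ 0 ∧ y.2 = 0) ∨ ((x.2 = 0 ↔ y.2 = 0) ∧ x.1 < y.1)

/-- What is needed of the preferences. -/
structure Prefs [LinearOrder V] (G : SimpleGraph V)
    (mp wp : V × Fin 4 → V × Fin 4 → V × Fin 4 → Prop) : Prop where
  m_own : ∀ v i a b, mp (v, i) (v, a) (v, b) ↔ rho i a < rho i b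
  m_for : ∀ v i a (x : V × Fin 4), x.1 ≠ v → mp (v, i) (v, a) x
  m_not : ∀ v i a (x : V × Fin 4), x.1 ≠ v → ¬ mp (v, i) x (v, a)
  m_key : ∀ v i (x y : V × Fin 4), x.1 ≠ v → y.1 ≠ v → lt2 x y → mp (v, i) x y
  w_own : ∀ v j a b, wp (v, j) (v, a) (v, b) ↔ rhoW j a < rhoW j b
  w_for : ∀ v j a (x : V × Fin 4), x.1 ≠ v → ¬ Ins G (v, j) x → wp (v, j) (v, a) x
  w_not : ∀ v j a (x : V × Fin 4), x.1 ≠ v → ¬ Ins G (v, j) x → ¬ wp (v, j) x (v, a)
  w_key : ∀ v j (x y : V × Fin 4), x.1 ≠ v → y.1 ≠ v → x.1 < y.1 → ¬ Ins G (v, j) y →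
    wp (v, j) x y
  w_ins : ∀ v (x : V × Fin 4) (i : Fin 4), i ≠ 3 → Ins G (v, 0) x → (wp (v, 0) x (v, i) ↔ x.2 ≤ i)

/-- The men `m`, `m'` want to swap their wives or the wives want to swap their husbands. -/
def Sw (mp wp : V × Fin 4 → V × Fin 4 → V × Fin 4 → Prop) (M : Equiv.Perm (V × Fin 4))
    (m m' : V × Fin 4) : Prop :=
  (mp m (M m') (M m) ∧ mp m' (M m) (M m')) ∨ (wp (M m) m' m ∧ wp (M m') m m')

/-- `m` takes part in a blocking pair, or his wife does. -/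
def Act (mp wp : V × Fin 4 → V × Fin 4 → V × Fin 4 → Prop) (M : Equiv.Perm (V × Fin 4))
    (m : V × Fin 4) : Prop := ∃ m', Sw mp wp M m m'

/-- `m` is married to a woman of another group. -/
def Ext (M : Equiv.Perm (V × Fin 4)) (m : V × Fin 4) : Prop := (M m).1 ≠ m.1

variable [LinearOrder V] {G : SimpleGraph V} {mp wp : V × Fin 4 → V × Fin 4 → V × Fin 4 → Prop}
  {M : Equiv.Perm (V × Fin 4)}

lemma pair_step (P : Prefs G mp wp) {m m' : V × Fin 4} (h1 : m'.1 = (M m).1) (hm : Ext M m)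
    (hm' : Ext M m') (hi : ¬ Ins G (M m) m) (hi' : ¬ Ins G (M m') m') (hs : ¬ Sw mp wp M m m') :
    m'.1 < m.1 ∧ lt2 (M m) (M m') := by
  obtain ⟨g, i⟩ := m
  obtain ⟨u, j⟩ := m'
  generalize hw : M (g, i) = w at *
  generalize hw' : M (u, j) = w' at *
  obtain ⟨u1, a⟩ := w
  obtain ⟨u', b⟩ := w'
  simp only [Ext, hw, hw'] at hm hm' h1
  subst h1
  rw [Sw, hw, hw', not_or] at hs
  obtain ⟨hs1, hs2⟩ := hs
  have hgu' : u' ≠ g := by
    rintro rfl
    exact hs1 ⟨P.m_for _ _ _ _ hm, P.m_for _ _ _ _ hm'⟩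
  have h3 : ¬ lt2 (u', b) (u, a) := fun h =>
    hs1 ⟨P.m_key g i _ _ hgu' hm h, P.m_for _ _ _ _ hm'⟩
  have h4 : ¬ g < u := fun h =>
    hs2 ⟨P.w_for _ _ _ _ (Ne.symm hm) hi, P.w_key u' b (g, i) (u, j) hgu'.symm (Ne.symm hm') h hi'⟩
  refine ⟨lt_of_le_of_ne (not_lt.1 h4) hm, ?_⟩
  unfold lt2 at h3 ⊢
  dsimp only at h3 ⊢
  by_cases ha : a = 0 <;> by_cases hb : b = 0
  · right
    refine ⟨iff_of_true ha hb, ?_⟩
    by_contra h5
    exact h3 (Or.inr ⟨iff_of_true hb ha, lt_of_le_of_ne (not_lt.1 h5) hm'⟩)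
  · exact absurd (Or.inl ⟨hb, ha⟩) h3
  · exact Or.inl ⟨ha, hb⟩
  · right
    refine ⟨iff_of_false ha hb, ?_⟩
    by_contra h5
    exact h3 (Or.inr ⟨iff_of_false hb ha, lt_of_le_of_ne (not_lt.1 h5) hm'⟩)

/-- the guard -/
lemma guard_step (P : Prefs G mp wp) {m : V × Fin 4} {u : V} (hm : M m = (u, 0)) (hg : m.1 ≠ u)
    (hs : ¬ Sw mp wp M m (u, 3)) : (M (u, 3)).2 = 0 ∧ u < (M (u, 3)).1 := by
  obtain ⟨g, i⟩ := m
  have hne : M (u, 3) ≠ (u, 0) := fun h => by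
    have h1 : (u, (3 : Fin 4)) = (g, i) := M.injective (h.trans hm.symm)
    exact hg (Prod.ext_iff.1 h1).1.symm
  rw [Sw, hm, not_or] at hs
  generalize hw : M (u, 3) = w at *
  obtain ⟨u', b⟩ := w
  have h1 : mp (u, 3) (u, 0) (u', b) := by
    by_cases hu : u' = u
    · subst hu
      rw [P.m_own]
      exact rho_guard b fun h => hne (by rw [h])
    · exact P.m_for _ _ _ _ hu
  have h2 : ¬ mp (g, i) (u', b) (u, 0) := fun h => hs.1 ⟨h, h1⟩
  have hgu' : u' ≠ g := by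
    rintro rfl
    exact h2 (P.m_for _ _ _ _ (Ne.symm hg))
  have h3 : ¬ lt2 (u', b) (u, 0) := fun h => h2 (P.m_key g i _ _ hgu' (Ne.symm hg) h)
  unfold lt2 at h3
  dsimp only at h3 ⊢
  have hb : b = 0 := by
    by_contra hb
    exact h3 (Or.inl ⟨hb, rfl⟩)
  refine ⟨hb, ?_⟩
  by_contra h5
  have hu : u' ≠ u := fun h => hne (by rw [h, hb])
  exact h3 (Or.inr ⟨iff_of_true hb rfl, lt_of_le_of_ne (not_lt.1 h5) hu⟩)

/-- if the woman `(u, 0)` has a foreign husband, then he or the guard takes part in a block -/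
lemma act_of_foreign (P : Prefs G mp wp) {m : V × Fin 4} {u : V} (hm : M m = (u, 0))
    (hg : m.1 ≠ u) : Act mp wp M m ∨ Act mp wp M (u, 3) := by
  by_contra hcon
  rw [not_or] at hcon
  obtain ⟨h1, h2⟩ := hcon
  obtain ⟨h3, h4⟩ := guard_step P hm hg fun h => h1 ⟨_, h⟩
  have h5 : M (u, 3) = ((M (u, 3)).1, 0) := Prod.ext rfl h3
  obtain ⟨h6, h7⟩ := guard_step P (m := (u, 3)) h5 h4.ne fun h => h2 ⟨_, h⟩
  have h8 := pair_step P (m := (u, 3)) (m' := ((M (u, 3)).1, 3)) rfl h4.ne' h7.ne'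
    (fun h => h.2.1 rfl) (fun h => h.2.1 rfl) fun h => h2 ⟨_, h⟩
  exact absurd h8.1 (not_lt.2 h4.le)

/-! ### the next external man -/

section next

omit [LinearOrder V]

lemma exists_pow [Finite V] {m : V × Fin 4} (hm : Ext M m) : ∃ k, 0 < k ∧ Ext M ((M ^ k) m) :=
  ⟨orderOf M, orderOf_pos M, by rw [pow_orderOf_eq_one]; exact hm⟩

open Classical in
/-- the next external man -/
noncomputable def nx (M : Equiv.Perm (V × Fin 4)) (m : V × Fin 4) : V × Fin 4 :=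
  if h : ∃ k, 0 < k ∧ Ext M ((M ^ k) m) then (M ^ (Nat.find h)) m else m

lemma ext_nx [Finite V] {m : V × Fin 4} (hm : Ext M m) : Ext M (nx M m) := by
  classical
  rw [nx, dif_pos (exists_pow hm)]
  exact (Nat.find_spec (exists_pow hm)).2

lemma fst_nx [Finite V] {m : V × Fin 4} (hm : Ext M m) : (nx M m).1 = (M m).1 := by
  classical
  have h := exists_pow hm
  rw [nx, dif_pos h]
  have key : ∀ j, 0 < j → j ≤ Nat.find h → ((M ^ j) m).1 = (M m).1 := by
    intro j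
    induction j with
    | zero => intro h0; exact absurd h0 (lt_irrefl 0)
    | succ j ih =>
      intro _ hj
      rcases Nat.eq_zero_or_pos j with rfl | hj0
      · simp
      · have h1 : ¬ Ext M ((M ^ j) m) := fun h2 => Nat.find_min h (by omega) ⟨hj0, h2⟩
        rw [Ext, not_not] at h1
        rw [pow_succ', Equiv.Perm.mul_apply, h1]
        exact ih hj0 (by omega)
  exact key _ (Nat.find_spec h).1 le_rfl

lemma nx_injOn [Finite V] : Set.InjOn (nx M) {m | Ext M m} := by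
  classical
  have key : ∀ m m' : V × Fin 4, Ext M m → ∀ (h : ∃ k, 0 < k ∧ Ext M ((M ^ k) m))
      (h' : ∃ k, 0 < k ∧ Ext M ((M ^ k) m')), (M ^ (Nat.find h)) m = (M ^ (Nat.find h')) m' →
      Nat.find h ≤ Nat.find h' → m = m' := by
    intro m m' hm h h' heq hle
    have h1 : m = (M ^ (Nat.find h' - Nat.find h)) m' := by
      apply (M ^ (Nat.find h)).injective
      rw [heq, ← Equiv.Perm.mul_apply, ← pow_add]
      congr 2
      omega
    rcases Nat.eq_zero_or_pos (Nat.find h' - Nat.find h) with h2 | h2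
    · rw [h2] at h1; simpa using h1
    · have h3 := (Nat.find_spec h).1
      exact absurd ⟨h2, by rw [← h1]; exact hm⟩ (Nat.find_min h' (by omega))
  intro m hm m' hm' heq
  have h := exists_pow (show Ext M m from hm)
  have h' := exists_pow (show Ext M m' from hm')
  rw [nx, nx, dif_pos h, dif_pos h'] at heq
  rcases le_total (Nat.find h) (Nat.find h') with hle | hle
  · exact key m m' hm h h' heq hle
  · exact (key m' m hm' h' h heq.symm hle).symm

end next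

/-- among four consecutive external men there is something to charge to -/
lemma chain [Finite V] (P : Prefs G mp wp) {m : V × Fin 4} (hm : Ext M m) :
    Act mp wp M m ∨ Act mp wp M (nx M m) ∨ Act mp wp M (nx M (nx M m)) ∨
      Ins G (M m) m ∨ Ins G (M (nx M m)) (nx M m) ∨
        Ins G (M (nx M (nx M m))) (nx M (nx M m)) ∨
          Ins G (M (nx M (nx M (nx M m)))) (nx M (nx M (nx M m))) := by
  by_contra hcon
  simp only [not_or] at hcon
  obtain ⟨a0, a1, a2, i0, i1, i2, i3⟩ := hcon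
  have e1 := ext_nx hm
  have e2 := ext_nx e1
  have e3 := ext_nx e2
  have f0 := fst_nx hm
  have f1 := fst_nx e1
  have f2 := fst_nx e2
  obtain ⟨-, h2⟩ := pair_step P f0 hm e1 i0 i1 fun h => a0 ⟨_, h⟩
  obtain ⟨h3, h4⟩ := pair_step P f1 e1 e2 i1 i2 fun h => a1 ⟨_, h⟩
  obtain ⟨h5, -⟩ := pair_step P f2 e2 e3 i2 i3 fun h => a2 ⟨_, h⟩
  unfold lt2 at h2 h4
  rw [← f0, ← f1] at h2
  rw [← f1, ← f2] at h4
  rcases h2 with ⟨h6, h7⟩ | ⟨h6, h7⟩
  · rcases h4 with ⟨h8, h9⟩ | ⟨h8, h9⟩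
    · exact h8 h7
    · exact lt_asymm h5 h9
  · exact lt_asymm h3 h7

end Pool.Agent.Lib.MP_bd0f13_lc.Rob
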