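import Pool.Agent.Lib.MP_bd0f13_lc.Rob.Core

/-!
# Charging; the matchings of colourings
-/

namespace Pool.Agent.Lib.MP_bd0f13_lc.Rob

variable {V : Type}

/-- the matching of a colouring -/
def matchOf (c : V → Fin 3) : Equiv.Perm (V × Fin 4) where
  toFun x := (x.1, tau (c x.1) x.2)
  invFun x := (x.1, tau' (c x.1) x.2)
  left_inv x := by simp [tau'_tau]
  right_inv x := by simp [tau_tau']

lemma matchOf_apply (c : V → Fin 3) (v : V) (i : Fin 4) :
    matchOf c (v, i) = (v, tau (c v) i) := rfl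

lemma matchOf_symm_apply (c : V → Fin 3) (v : V) (i : Fin 4) :
    (matchOf c).symm (v, i) = (v, tau' (c v) i) := rfl

/-- the colour of a vertex in a matching: the type of the husband of the woman `(v, 0)` -/
def col (M : Equiv.Perm (V × Fin 4)) (v : V) : Fin 3 :=
  if h : ((M.symm (v, 0)).2 : ℕ) < 3 then ⟨(M.symm (v, 0)).2, h⟩ else 0

lemma col_eq {M : Equiv.Perm (V × Fin 4)} {v : V} {c : Fin 3}
    (h : ∀ i, M (v, i) = (v, tau c i)) : col M v = c := by
  have h1 : M.symm (v, 0) = (v, c.castSucc) := by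
    rw [Equiv.symm_apply_eq, h, tau_castSucc]
  have h2 : (((M.symm (v, 0)).2 : Fin 4) : ℕ) = c := by rw [h1]; rfl
  rw [col, dif_pos (by rw [h2]; exact c.2)]
  exact Fin.ext h2

lemma col_matchOf (c : V → Fin 3) (v : V) : col (matchOf c) v = c v :=
  col_eq fun i => matchOf_apply c v i

variable [LinearOrder V] {G : SimpleGraph V} {mp wp : V × Fin 4 → V × Fin 4 → V × Fin 4 → Prop}
  {M : Equiv.Perm (V × Fin 4)}

section count

variable [Fintype V]

open Classical in
/-- the men who take part in a blocking pair or whose wives do -/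
noncomputable def actives (mp wp : V × Fin 4 → V × Fin 4 → V × Fin 4 → Prop)
    (M : Equiv.Perm (V × Fin 4)) : Finset (V × Fin 4) :=
  Finset.univ.filter (Act mp wp M)

omit [LinearOrder V] in
lemma mem_actives {m : V × Fin 4} : m ∈ actives mp wp M ↔ Act mp wp M m := by
  simp [actives]

open Classical in
lemma card_ins_le (P : Prefs G mp wp) :
    (Finset.univ.filter fun m => Ins G (M m) m).card ≤ (actives mp wp M).card := by
  refine Finset.card_le_card_of_injOn
    (fun m => if Act mp wp M m then m else ((M m).1, 3)) ?_ ?_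
  · intro m hm
    have hm' : Ins G (M m) m := by simpa using hm
    obtain ⟨h1, h2, h3⟩ := hm'
    beta_reduce
    split_ifs with h
    · exact mem_actives.2 h
    · exact mem_actives.2 ((act_of_foreign P (m := m) (u := (M m).1) (Prod.ext rfl h1)
        h3.ne').resolve_left h)
  · intro m hm m' hm' heq
    have h1 : Ins G (M m) m := by simpa using hm
    have h1' : Ins G (M m') m' := by simpa using hm'
    beta_reduce at heq
    split_ifs at heq with h h' h'
    · exact heq
    · exact absurd (Prod.ext_iff.1 heq).2 h1.2.1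
    · exact absurd (Prod.ext_iff.1 heq).2.symm h1'.2.1
    · exact M.injective (Prod.ext (Prod.ext_iff.1 heq).1 (h1.1.trans h1'.1.symm))

omit [LinearOrder V] in
open Classical in
lemma card_nx_le (Q : V × Fin 4 → Prop) :
    (Finset.univ.filter fun m => Ext M m ∧ Q (nx M m)).card ≤
      (Finset.univ.filter fun m => Ext M m ∧ Q m).card := by
  refine Finset.card_le_card_of_injOn (nx M) ?_ ?_
  · intro m hm
    have h : Ext M m ∧ Q (nx M m) := by simpa using hm
    simpa using ⟨ext_nx h.1, h.2⟩
  · intro m hm m' hm' heq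
    have h : Ext M m ∧ Q (nx M m) := by simpa using hm
    have h' : Ext M m' ∧ Q (nx M m') := by simpa using hm'
    exact nx_injOn h.1 h'.1 heq

open Classical in
lemma card_ext_le (P : Prefs G mp wp) :
    (Finset.univ.filter (Ext M)).card ≤ 7 * (actives mp wp M).card := by
  have hS : ∀ Q : V × Fin 4 → Prop, (∀ m, Q m → Act mp wp M m) →
      (Finset.univ.filter fun m => Ext M m ∧ Q m).card ≤ (actives mp wp M).card := fun Q hQ =>
    Finset.card_le_card fun m hm => by
      have h : Ext M m ∧ Q m := by simpa using hm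
      exact mem_actives.2 (hQ m h.2)
  have hA : (Finset.univ.filter fun m => Ext M m ∧ Ins G (M m) m).card ≤
      (actives mp wp M).card :=
    (Finset.card_le_card (Finset.monotone_filter_right _ fun m _ h => h.2)).trans (card_ins_le P)
  have hsub : Finset.univ.filter (Ext M) ⊆
      (Finset.univ.filter fun m => Ext M m ∧ Act mp wp M m) ∪
      ((Finset.univ.filter fun m => Ext M m ∧ Act mp wp M (nx M m)) ∪
      ((Finset.univ.filter fun m => Ext M m ∧ Act mp wp M (nx M (nx M m))) ∪
      ((Finset.univ.filter fun m => Ext M m ∧ Ins G (M m) m) ∪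
      ((Finset.univ.filter fun m => Ext M m ∧ Ins G (M (nx M m)) (nx M m)) ∪
      ((Finset.univ.filter fun m => Ext M m ∧ Ins G (M (nx M (nx M m))) (nx M (nx M m))) ∪
      (Finset.univ.filter fun m => Ext M m ∧
        Ins G (M (nx M (nx M (nx M m)))) (nx M (nx M (nx M m))))))))) := by
    intro m hm
    have h : Ext M m := by simpa using hm
    have h2 := chain P h
    simp only [Finset.mem_union, Finset.mem_filter, Finset.mem_univ, true_and]
    tauto
  have h1 := card_nx_le (M := M) (Act mp wp M)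
  have h2 := (card_nx_le (M := M) fun m => Act mp wp M (nx M m)).trans h1
  have h3 := card_nx_le (M := M) fun m => Ins G (M m) m
  have h4 := (card_nx_le (M := M) fun m => Ins G (M (nx M m)) (nx M m)).trans h3
  have h5 := (card_nx_le (M := M)
    fun m => Ins G (M (nx M (nx M m))) (nx M (nx M m))).trans h4
  have h0 := hS (Act mp wp M) fun m h => h
  refine (Finset.card_le_card hsub).trans ?_
  refine (Finset.card_union_le _ _).trans ?_
  refine (Nat.add_le_add_left (Finset.card_union_le _ _) _).trans ?_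
  refine (Nat.add_le_add_left (Nat.add_le_add_left (Finset.card_union_le _ _) _) _).trans ?_
  refine (Nat.add_le_add_left (Nat.add_le_add_left (Nat.add_le_add_left
    (Finset.card_union_le _ _) _) _) _).trans ?_
  refine (Nat.add_le_add_left (Nat.add_le_add_left (Nat.add_le_add_left (Nat.add_le_add_left
    (Finset.card_union_le _ _) _) _) _) _).trans ?_
  refine (Nat.add_le_add_left (Nat.add_le_add_left (Nat.add_le_add_left (Nat.add_le_add_left
    (Nat.add_le_add_left (Finset.card_union_le _ _) _) _) _) _) _).trans ?_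
  omega

open Classical in
/-- the vertices that are given up -/
noncomputable def bad (mp wp : V × Fin 4 → V × Fin 4 → V × Fin 4 → Prop)
    (M : Equiv.Perm (V × Fin 4)) : Finset V :=
  (actives mp wp M ∪ Finset.univ.filter (Ext M)).image Prod.fst

lemma card_bad_le (P : Prefs G mp wp) :
    (bad mp wp M).card ≤ 8 * (actives mp wp M).card := by
  classical
  have h1 := card_ext_le (M := M) P
  have h2 : (bad mp wp M).card ≤ (actives mp wp M ∪ Finset.univ.filter (Ext M)).card :=
    Finset.card_image_le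
  have h3 := Finset.card_union_le (actives mp wp M) (Finset.univ.filter (Ext M))
  omega

lemma not_bad {u : V} (hu : u ∉ bad mp wp M) (i : Fin 4) :
    ¬ Act mp wp M (u, i) ∧ ¬ Ext M (u, i) := by
  classical
  constructor
  · intro h
    exact hu (Finset.mem_image.2 ⟨(u, i), Finset.mem_union_left _ (mem_actives.2 h), rfl⟩)
  · intro h
    exact hu (Finset.mem_image.2 ⟨(u, i), Finset.mem_union_right _ (by simpa using h), rfl⟩)

lemma good_of_not_bad (P : Prefs G mp wp) {u : V} (hu : u ∉ bad mp wp M) :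
    ∀ i, M (u, i) = (u, tau (col M u) i) := by
  have hin : ∀ i, (M (u, i)).1 = u := fun i => not_not.1 (not_bad hu i).2
  have hM : ∀ i, M (u, i) = (u, (M (u, i)).2) := fun i => Prod.ext (hin i) rfl
  obtain ⟨c, hc⟩ := exists_eq_tau (fun i => (M (u, i)).2) (fun i j hij => by
      have h1 : M (u, i) = M (u, j) := by
        rw [hM i, hM j]; exact congrArg (fun t => (u, t)) hij
      exact (Prod.ext_iff.1 (M.injective h1)).2) (fun i j h => by
      refine (not_bad hu i).1 ⟨(u, j), ?_⟩
      rw [Sw, hM i, hM j, P.m_own, P.m_own, P.w_own, P.w_own]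
      exact h)
  have h3 : ∀ i, M (u, i) = (u, tau c i) := fun i => by
    rw [hM i]; exact congrArg (fun t => (u, t)) (congrFun hc i)
  rw [col_eq h3]
  exact h3

lemma col_ne (P : Prefs G mp wp) {u v : V} (hu : u ∉ bad mp wp M) (hv : v ∉ bad mp wp M)
    (huv : G.Adj u v) : col M u ≠ col M v := by
  intro hc
  have h1 := good_of_not_bad P hu (col M u).castSucc
  have h2 := good_of_not_bad P hv (col M u).castSucc
  rw [tau_castSucc] at h1
  rw [← hc, tau_castSucc] at h2
  refine (not_bad hu (col M u).castSucc).1 ⟨(v, (col M u).castSucc), Or.inr ?_⟩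
  rw [h1, h2]
  have h3 : (col M u).castSucc ≠ 3 := (Fin.castSucc_lt_last _).ne
  exact ⟨(P.w_ins _ _ _ h3 ⟨rfl, h3, huv⟩).2 le_rfl,
    (P.w_ins _ _ _ h3 ⟨rfl, h3, huv.symm⟩).2 le_rfl⟩

lemma eq_matchOf (P : Prefs G mp wp) (h : actives mp wp M = ∅) :
    M = matchOf (col M) ∧ ∀ u v, G.Adj u v → col M u ≠ col M v := by
  have h1 : bad mp wp M = ∅ := by
    have := card_bad_le (M := M) P
    rw [h, Finset.card_empty, mul_zero, Nat.le_zero, Finset.card_eq_zero] at this
    exact this
  have h2 : ∀ u, u ∉ bad mp wp M := fun u => by rw [h1]; simp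
  refine ⟨Equiv.ext fun x => ?_, fun u v huv => col_ne P (h2 u) (h2 v) huv⟩
  exact good_of_not_bad P (h2 x.1) x.2

end count

/-! ### the matchings of colourings -/

/-- who is envied by a woman -/
lemma envy_woman (P : Prefs G mp wp) (c : V → Fin 3) {v v' : V} {j j' : Fin 4}
    (h : wp (v, j) ((matchOf c).symm (v', j')) ((matchOf c).symm (v, j))) :
    tau' (c v') j' < tau' (c v) j ∨
      (j = 0 ∧ G.Adj v v' ∧ tau' (c v') j' ≠ 3 ∧ tau' (c v') j' ≤ tau' (c v) j) := by
  rw [matchOf_symm_apply, matchOf_symm_apply] at h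
  by_cases hv : v' = v
  · subst hv
    rw [P.w_own] at h
    exact Or.inl (rhoW_lt _ _ _ h)
  · by_cases hi : Ins G (v, j) (v', tau' (c v') j')
    · have hj : j = 0 := hi.1
      subst hj
      rw [P.w_ins _ _ _ (by rw [tau'_zero]; exact (Fin.castSucc_lt_last _).ne) hi] at h
      exact Or.inr ⟨rfl, hi.2.2, hi.2.1, h⟩
    · exact absurd h (P.w_not _ _ _ _ hv hi)

/-- no woman envies and is envied in return, but in monochromatic edges -/
lemma swap_women (P : Prefs G mp wp) (c : V → Fin 3) (x y : V × Fin 4) :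
    (wp x ((matchOf c).symm y) ((matchOf c).symm x) ∧
      wp y ((matchOf c).symm x) ((matchOf c).symm y)) ↔
    x.2 = 0 ∧ y.2 = 0 ∧ G.Adj x.1 y.1 ∧ c x.1 = c y.1 := by
  obtain ⟨v, j⟩ := x
  obtain ⟨v', j'⟩ := y
  constructor
  · rintro ⟨h1, h2⟩
    rcases envy_woman P c h1 with h3 | ⟨h3, h4, h5, h6⟩
    · rcases envy_woman P c h2 with h7 | ⟨h7, h8, h9, h10⟩
      · exact absurd h7 (lt_asymm h3)
      · exact absurd h10 (not_le.2 h3)
    · rcases envy_woman P c h2 with h7 | ⟨h7, h8, h9, h10⟩
      · exact absurd h6 (not_le.2 h7)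
      · subst h3
        subst h7
        refine ⟨rfl, rfl, h4, ?_⟩
        rw [tau'_zero, tau'_zero] at h6 h10
        exact Fin.castSucc_injective _ (le_antisymm h10 h6)
  · rintro ⟨h1, h2, h3, h4⟩
    dsimp only at h1 h2 h3 h4
    subst h1
    subst h2
    have hne : ∀ c : Fin 3, c.castSucc ≠ 3 := fun c => (Fin.castSucc_lt_last c).ne
    rw [matchOf_symm_apply, matchOf_symm_apply, tau'_zero, tau'_zero, h4]
    exact ⟨(P.w_ins _ _ _ (hne _) ⟨rfl, hne _, h3⟩).2 le_rfl,
      (P.w_ins _ _ _ (hne _) ⟨rfl, hne _, h3.symm⟩).2 le_rfl⟩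

lemma no_men_cycle (P : Prefs G mp wp) (c : V → Fin 3) (k : ℕ) (hk : 2 ≤ k) :
    ¬ Blocks mp (matchOf c) k := by
  rintro ⟨a, ha, hb⟩
  have hstep : ∀ i, (a (finRotate k i)).1 = (a i).1 ∧
      phi (c (a i).1) (a (finRotate k i)).2 < phi (c (a i).1) (a i).2 := by
    intro i
    have h1 := hb i
    generalize a i = x at *
    generalize a (finRotate k i) = y at *
    obtain ⟨v, p⟩ := x
    obtain ⟨v', p'⟩ := y
    rw [matchOf_apply, matchOf_apply] at h1
    have h2 : v' = v := by
      by_contra hne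
      exact P.m_not v p _ (v', tau (c v') p') hne h1
    subst h2
    exact ⟨rfl, phi_lt _ _ _ ((P.m_own _ _ _ _).1 h1)⟩
  have h3 := cycle_const (fun i => phi (c (a i).1) (a i).2) (fun i => by
    rw [(hstep i).1]; exact (hstep i).2.le)
  have h4 := h3 ⟨0, by omega⟩
  have h5 := hstep ⟨0, by omega⟩
  beta_reduce at h4
  rw [h5.1] at h4
  omega

lemma no_women_cycle (P : Prefs G mp wp) (c : V → Fin 3) (hc : ∀ u v, G.Adj u v → c u ≠ c v)
    (k : ℕ) (hk : 2 ≤ k) : ¬ Blocks wp (matchOf c).symm k := by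
  rintro ⟨a, ha, hb⟩
  have hstep : ∀ i, tau' (c (a (finRotate k i)).1) (a (finRotate k i)).2 ≤
        tau' (c (a i).1) (a i).2 ∧
      (tau' (c (a (finRotate k i)).1) (a (finRotate k i)).2 =
        tau' (c (a i).1) (a i).2 → (a i).2 = 0 ∧ G.Adj (a i).1 (a (finRotate k i)).1) := by
    intro i
    rcases envy_woman P c (hb i) with h2 | ⟨h2, h3, -, h4⟩
    · exact ⟨h2.le, fun h => absurd h h2.ne⟩
    · exact ⟨h4, fun _ => ⟨h2, h3⟩⟩
  have h3 := cycle_const
    (fun i => ((tau' (c (a i).1) (a i).2 : Fin 4) : ℕ)) (fun i => (hstep i).1)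
  have h4 : ∀ i, (a i).2 = 0 ∧ G.Adj (a i).1 (a (finRotate k i)).1 := fun i =>
    (hstep i).2 (Fin.ext (h3 i))
  have h5 := h4 ⟨0, by omega⟩
  have h6 := h4 (finRotate k ⟨0, by omega⟩)
  have h7 := Fin.ext (h3 ⟨0, by omega⟩)
  rw [h5.1, h6.1, tau'_zero, tau'_zero] at h7
  exact hc _ _ h5.2 (Fin.castSucc_injective _ h7.symm)

end Pool.Agent.Lib.MP_bd0f13_lc.Rob
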