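import Pool.Agent.Lib.MP_bd0f13_lc.Rob.Inst

/-!
# The robust reduction
-/

namespace Pool.Agent.Lib.MP_bd0f13_lc.Rob

variable {N : ℕ} {E : List (ℕ × ℕ)} {G : SimpleGraph (Fin N)}

/-- the instance of the graph `G` -/
noncomputable def inst (hG : Codes N E G) : SM (N * 4) where
  man m := listPerm
    (comp (base N) (manPre (finProdFinEquiv.symm m).1 (finProdFinEquiv.symm m).2))
    (comp_perm (base_perm N) (nodup_manPre _ _) (lt_of_mem_manPre _ _))
  woman w := listPerm
    (comp (List.range (N * 4))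
      (womanPre N E (finProdFinEquiv.symm w).1 (finProdFinEquiv.symm w).2))
    (comp_perm (List.Perm.refl _) (nodup_womanPre hG _ _) (lt_of_mem_womanPre hG _ _))

lemma inst_man (hG : Codes N E G) (v : Fin N) (i : Fin 4) :
    (inst hG).man (finProdFinEquiv (v, i)) = listPerm (comp (base N) (manPre v i))
      (comp_perm (base_perm N) (nodup_manPre _ _) (lt_of_mem_manPre _ _)) := by
  simp only [inst, Equiv.symm_apply_apply]

lemma inst_woman (hG : Codes N E G) (v : Fin N) (j : Fin 4) :
    (inst hG).woman (finProdFinEquiv (v, j)) =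
      listPerm (comp (List.range (N * 4)) (womanPre N E v j))
        (comp_perm (List.Perm.refl _) (nodup_womanPre hG _ _) (lt_of_mem_womanPre hG _ _)) := by
  simp only [inst, Equiv.symm_apply_apply]

/-- preferences of the men, on pairs (vertex, type) -/
def mpr {k : ℕ} (I : SM (N * k)) (x y z : Fin N × Fin k) : Prop :=
  I.ManPrefers (finProdFinEquiv x) (finProdFinEquiv y) (finProdFinEquiv z)

/-- preferences of the women, on pairs (vertex, type) -/
def wpr {k : ℕ} (I : SM (N * k)) (x y z : Fin N × Fin k) : Prop :=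
  I.WomanPrefers (finProdFinEquiv x) (finProdFinEquiv y) (finProdFinEquiv z)

lemma mpr_iff (hG : Codes N E G) (v : Fin N) (i : Fin 4) (x y : Fin N × Fin 4) :
    mpr (inst hG) (v, i) x y ↔
      (comp (base N) (manPre v i)).idxOf (x.2 + 4 * x.1 : ℕ) <
        (comp (base N) (manPre v i)).idxOf (y.2 + 4 * y.1 : ℕ) := by
  rw [mpr, SM.ManPrefers, inst_man, listPerm_lt]
  rfl

lemma wpr_iff (hG : Codes N E G) (v : Fin N) (j : Fin 4) (x y : Fin N × Fin 4) :
    wpr (inst hG) (v, j) x y ↔
      (comp (List.range (N * 4)) (womanPre N E v j)).idxOf (x.2 + 4 * x.1 : ℕ) <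
        (comp (List.range (N * 4)) (womanPre N E v j)).idxOf (y.2 + 4 * y.1 : ℕ) := by
  rw [wpr, SM.WomanPrefers, inst_woman, listPerm_lt]
  rfl

/-- the woman `(v, 0)` -/
lemma w0_aux (hG : Codes N E G) (v : Fin N) (i : Fin 4) (x : Fin N × Fin 4) :
    (comp (List.range (N * 4)) (womanPre N E v 0)).idxOf (x.2 + 4 * x.1 : ℕ) <
        (comp (List.range (N * 4)) (womanPre N E v 0)).idxOf (i + 4 * v : ℕ) ↔
      ((x.2 : ℕ) < i ∧ (x.1 = v ∨ G.Adj v x.1)) ∨
        ((x.2 : ℕ) = i ∧ (i : ℕ) ≠ 3 ∧ G.Adj v x.1) := by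
  have hn : (comp (List.range (N * 4)) (womanPre N E v 0)).Nodup :=
    (comp_perm (List.Perm.refl _) (nodup_womanPre hG v 0)
      (lt_of_mem_womanPre hG v 0)).nodup_iff.2 List.nodup_range
  set rest := (List.range (N * 4)).filter
    (fun x => !((womanPre N E v 0).any fun y => decide (y = x))) with hrest
  have hl : comp (List.range (N * 4)) (womanPre N E v 0) =
      (((nbrs N E v).map (fun u => 0 + 4 * u) ++ [0 + 4 * (v : ℕ)]) ++
        (((nbrs N E v).map (fun u => 1 + 4 * u) ++ [1 + 4 * (v : ℕ)]) ++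
          (((nbrs N E v).map (fun u => 2 + 4 * u) ++ [2 + 4 * (v : ℕ)]) ++
            [3 + 4 * (v : ℕ)]))) ++ rest := rfl
  have hx := x.2.2
  fin_cases i
  · rw [idxOf_lt_iff (p := (nbrs N E v).map (fun u => 0 + 4 * u))
      (s := block N E v 1 ++ block N E v 2 ++ [3 + 4 * (v : ℕ)] ++ rest) (by
        rw [hl]; simp [block]) hn]
    rw [code_mem_block_map hG v x (by omega)]
    simp
  · rw [idxOf_lt_iff (p := block N E v 0 ++ (nbrs N E v).map (fun u => 1 + 4 * u))
      (s := block N E v 2 ++ [3 + 4 * (v : ℕ)] ++ rest) (by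
        rw [hl]; simp [block]) hn]
    rw [List.mem_append, code_mem_block hG v x (by omega), code_mem_block_map hG v x (by omega)]
    simp
  · rw [idxOf_lt_iff (p := block N E v 0 ++ (block N E v 1 ++
      (nbrs N E v).map (fun u => 2 + 4 * u))) (s := [3 + 4 * (v : ℕ)] ++ rest) (by
        rw [hl]; simp [block]) hn]
    rw [List.mem_append, List.mem_append, code_mem_block hG v x (by omega),
      code_mem_block hG v x (by omega), code_mem_block_map hG v x (by omega)]
    have h1 : (x.2 : ℕ) < ((⟨2, by omega⟩ : Fin 4) : ℕ) ↔ (x.2 : ℕ) = 0 ∨ (x.2 : ℕ) = 1 := by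
      show (x.2 : ℕ) < 2 ↔ _
      omega
    rw [h1]
    simp
    tauto
  · rw [idxOf_lt_iff (p := block N E v 0 ++ (block N E v 1 ++ block N E v 2))
      (s := rest) (by
        rw [hl]; simp [block]) hn]
    rw [List.mem_append, List.mem_append, code_mem_block hG v x (by omega),
      code_mem_block hG v x (by omega), code_mem_block hG v x (by omega)]
    have h1 : (x.2 : ℕ) < ((⟨3, by omega⟩ : Fin 4) : ℕ) ↔
        (x.2 : ℕ) = 0 ∨ (x.2 : ℕ) = 1 ∨ (x.2 : ℕ) = 2 := by
      show (x.2 : ℕ) < 3 ↔ _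
      omega
    rw [h1]
    simp
    tauto

lemma key_lt {x y : Fin N × Fin 4} (h : lt2 x y) :
    key (N * 4) (x.2 + 4 * x.1 : ℕ) < key (N * 4) (y.2 + 4 * y.1 : ℕ) := by
  have hx := code_lt x
  have hx2 := x.2.2
  have hy2 := y.2.2
  have h0 : ∀ z : Fin N × Fin 4, z.2 = 0 ↔ (z.2 : ℕ) = 0 := fun z => by
    rw [Fin.ext_iff]; rfl
  rcases h with ⟨h1, h2⟩ | ⟨h1, h2⟩
  · rw [ne_eq, h0] at h1
    rw [h0] at h2
    rw [key, key, if_neg (by omega), if_pos (by omega)]
    omega
  · rw [h0, h0] at h1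
    have h3 : (x.1 : ℕ) < y.1 := h2
    by_cases h4 : (x.2 : ℕ) = 0
    · have h5 := h1.1 h4
      rw [key, key, if_pos (by omega), if_pos (by omega)]
      omega
    · have h5 : ¬ (y.2 : ℕ) = 0 := fun h => h4 (h1.2 h)
      rw [key, key, if_neg (by omega), if_neg (by omega)]
      omega

lemma prefs (hG : Codes N E G) : Prefs G (mpr (inst hG)) (wpr (inst hG)) where
  m_own v i a b := by
    rw [mpr_iff]
    dsimp only
    rw [idxOf_comp_of_mem (code_mem _ _ _), idxOf_comp_of_mem (code_mem _ _ _),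
      idxOf_manPre, idxOf_manPre]
  m_for v i a x hx := by
    rw [mpr_iff]
    exact idxOf_comp_lt (code_mem _ _ _) (code_ne _ fun h => hx (Fin.ext h))
  m_not v i a x hx := by
    rw [mpr_iff, not_lt]
    exact (idxOf_comp_lt (code_mem _ _ _) (code_ne _ fun h => hx (Fin.ext h))).le
  m_key v i x y hx hy hxy := by
    rw [mpr_iff]
    exact idxOf_comp_lt' (base_pairwise N) (mem_base.2 (code_lt x)) (mem_base.2 (code_lt y))
      (code_ne _ fun h => hx (Fin.ext h)) (code_ne _ fun h => hy (Fin.ext h)) (key_lt hxy)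
  w_own v j a b := by
    rw [wpr_iff]
    dsimp only
    by_cases hj : j = 0
    · subst hj
      refine (w0_aux hG v b (v, a)).trans ?_
      dsimp only
      have h1 : ¬ G.Adj v v := G.loopless.irrefl v
      have h2 : ∀ a b : Fin 4, rhoW 0 a < rhoW 0 b ↔ (a : ℕ) < b := by decide
      rw [h2]
      simp
    · rw [idxOf_comp_of_mem ((mem_womanPre hG v j (v, a)).2 (Or.inl rfl)),
        idxOf_comp_of_mem ((mem_womanPre hG v j (v, b)).2 (Or.inl rfl)),
        idxOf_womanPre _ _ _ hj, idxOf_womanPre _ _ _ hj]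
  w_for v j a x hx hi := by
    rw [wpr_iff]
    exact idxOf_comp_lt ((mem_womanPre hG v j (v, a)).2 (Or.inl rfl)) fun h =>
      ((mem_womanPre hG v j x).1 h).elim hx hi
  w_not v j a x hx hi := by
    rw [wpr_iff, not_lt]
    exact (idxOf_comp_lt ((mem_womanPre hG v j (v, a)).2 (Or.inl rfl)) fun h =>
      ((mem_womanPre hG v j x).1 h).elim hx hi).le
  w_key v j x y hx hy hxy hi := by
    rw [wpr_iff]
    have hy' : (y.2 + 4 * y.1 : ℕ) ∉ womanPre N E v j := fun h =>
      ((mem_womanPre hG v j y).1 h).elim hy hi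
    by_cases hx' : (x.2 + 4 * x.1 : ℕ) ∈ womanPre N E v j
    · exact idxOf_comp_lt hx' hy'
    · refine idxOf_comp_lt' (f := id) List.pairwise_lt_range (List.mem_range.2 (code_lt x))
        (List.mem_range.2 (code_lt y)) hx' hy' ?_
      have h1 : (x.1 : ℕ) < y.1 := hxy
      have := x.2.2
      simp only [id]
      omega
  w_ins v x i h3 hi := by
    rw [wpr_iff]
    refine (w0_aux hG v i x).trans ?_
    have h3' : (i : ℕ) ≠ 3 := fun h => h3 (Fin.ext h)
    have h4 : G.Adj v x.1 := hi.2.2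
    rw [Fin.le_def]
    constructor
    · rintro (⟨h, -⟩ | ⟨h, -⟩)
      · exact h.le
      · exact h.le
    · intro h
      rcases h.lt_or_eq with h | h
      · exact Or.inl ⟨h, Or.inr h4⟩
      · exact Or.inr ⟨h, h3', h4⟩

/-! ### from matchings of the instance to matchings of pairs -/

/-- a matching, on pairs (vertex, type) -/
def pull {k : ℕ} (M : Equiv.Perm (Fin (N * k))) : Equiv.Perm (Fin N × Fin k) :=
  (finProdFinEquiv.trans M).trans finProdFinEquiv.symm

/-- the converse -/
def push {k : ℕ} (M : Equiv.Perm (Fin N × Fin k)) : Equiv.Perm (Fin (N * k)) :=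
  (finProdFinEquiv.symm.trans M).trans finProdFinEquiv

lemma pull_push {k : ℕ} (M : Equiv.Perm (Fin N × Fin k)) : pull (push M) = M := by
  refine Equiv.ext fun x => ?_
  simp only [pull, push, Equiv.trans_apply, Equiv.symm_apply_apply]

lemma push_pull {k : ℕ} (M : Equiv.Perm (Fin (N * k))) : push (pull M) = M := by
  refine Equiv.ext fun x => ?_
  simp only [pull, push, Equiv.trans_apply, Equiv.apply_symm_apply]

lemma apply_pull {k : ℕ} (M : Equiv.Perm (Fin (N * k))) (x : Fin N × Fin k) :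
    finProdFinEquiv (pull M x) = M (finProdFinEquiv x) := by
  simp only [pull, Equiv.trans_apply, Equiv.apply_symm_apply]

lemma apply_pull_symm {k : ℕ} (M : Equiv.Perm (Fin (N * k))) (x : Fin N × Fin k) :
    finProdFinEquiv ((pull M).symm x) = M.symm (finProdFinEquiv x) := by
  simp only [pull, Equiv.symm_trans_apply, Equiv.symm_symm, Equiv.apply_symm_apply]

lemma blocks_pull_men {k : ℕ} (I : SM (N * k)) (M : Equiv.Perm (Fin (N * k))) (l : ℕ)
    (h : Blocks I.ManPrefers M l) : Blocks (mpr I) (pull M) l := by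
  obtain ⟨a, ha, hb⟩ := h
  refine ⟨fun i => finProdFinEquiv.symm (a i), fun i j hij =>
    ha (finProdFinEquiv.symm.injective hij), fun i => ?_⟩
  rw [mpr, apply_pull, apply_pull, Equiv.apply_symm_apply, Equiv.apply_symm_apply]
  exact hb i

lemma blocks_pull_women {k : ℕ} (I : SM (N * k)) (M : Equiv.Perm (Fin (N * k))) (l : ℕ)
    (h : Blocks I.WomanPrefers M.symm l) : Blocks (wpr I) (pull M).symm l := by
  obtain ⟨a, ha, hb⟩ := h
  refine ⟨fun i => finProdFinEquiv.symm (a i), fun i j hij =>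
    ha (finProdFinEquiv.symm.injective hij), fun i => ?_⟩
  rw [wpr, apply_pull_symm, apply_pull_symm, Equiv.apply_symm_apply, Equiv.apply_symm_apply]
  exact hb i

lemma sw_pull_iff (I : SM (N * 4)) (M : Equiv.Perm (Fin (N * 4))) (m m' : Fin N × Fin 4) :
    Sw (mpr I) (wpr I) (pull M) m m' ↔
      (I.ManPrefers (finProdFinEquiv m) (M (finProdFinEquiv m')) (M (finProdFinEquiv m)) ∧
        I.ManPrefers (finProdFinEquiv m') (M (finProdFinEquiv m)) (M (finProdFinEquiv m'))) ∨
      (I.WomanPrefers (M (finProdFinEquiv m)) (finProdFinEquiv m') (finProdFinEquiv m) ∧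
        I.WomanPrefers (M (finProdFinEquiv m')) (finProdFinEquiv m) (finProdFinEquiv m')) := by
  simp only [Sw, mpr, wpr, apply_pull]

/-- every blocking pair has two members -/
lemma blockingAgents_le {n : ℕ} (I : SM n) (M : Equiv.Perm (Fin n)) :
    I.blockingAgents M ≤ 2 * I.blockingPairs M := by
  classical
  have key : ∀ R : Fin n → Fin n → Prop, (∀ a b, R a b → R b a) → (∀ a, ¬ R a a) →
      {a : Fin n | ∃ b, R a b}.ncard ≤
        2 * {p : Fin n × Fin n | p.1 < p.2 ∧ R p.1 p.2}.ncard := by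
    intro R hs hi
    have h1 : {a : Fin n | ∃ b, R a b} ⊆
        (Prod.fst '' {p : Fin n × Fin n | p.1 < p.2 ∧ R p.1 p.2}) ∪
          (Prod.snd '' {p : Fin n × Fin n | p.1 < p.2 ∧ R p.1 p.2}) := by
      rintro a ⟨b, hab⟩
      rcases lt_trichotomy a b with h | h | h
      · exact Or.inl ⟨(a, b), ⟨h, hab⟩, rfl⟩
      · rw [h] at hab; exact absurd hab (hi b)
      · exact Or.inr ⟨(b, a), ⟨h, hs _ _ hab⟩, rfl⟩
    have h2 := Set.ncard_le_ncard h1 (Set.toFinite _)
    have h3 := Set.ncard_union_le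
      (Prod.fst '' {p : Fin n × Fin n | p.1 < p.2 ∧ R p.1 p.2})
      (Prod.snd '' {p : Fin n × Fin n | p.1 < p.2 ∧ R p.1 p.2})
    have h4 := Set.ncard_image_le (f := Prod.fst)
      (Set.toFinite {p : Fin n × Fin n | p.1 < p.2 ∧ R p.1 p.2})
    have h5 := Set.ncard_image_le (f := Prod.snd)
      (Set.toFinite {p : Fin n × Fin n | p.1 < p.2 ∧ R p.1 p.2})
    omega
  have h1 := key (fun a b => I.ManPrefers a (M b) (M a) ∧ I.ManPrefers b (M a) (M b))
    (fun a b h => ⟨h.2, h.1⟩) fun a h => lt_irrefl _ h.1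
  have h2 := key (fun a b => I.WomanPrefers a (M.symm b) (M.symm a) ∧
      I.WomanPrefers b (M.symm a) (M.symm b)) (fun a b h => ⟨h.2, h.1⟩) fun a h => lt_irrefl _ h.1
  rw [SM.blockingAgents, SM.blockingPairs]
  omega

/-- the active men come from different agents in blocking pairs -/
lemma card_actives_le (I : SM (N * 4)) (M : Equiv.Perm (Fin (N * 4))) :
    (actives (mpr I) (wpr I) (pull M)).card ≤ I.blockingAgents M := by
  classical
  rw [SM.blockingAgents]
  set P : Set (Fin (N * 4)) := {m | ∃ m', I.ManPrefers m (M m') (M m) ∧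
    I.ManPrefers m' (M m) (M m')} with hP
  set Q : Set (Fin (N * 4)) := {w | ∃ w', I.WomanPrefers w (M.symm w') (M.symm w) ∧
      I.WomanPrefers w' (M.symm w) (M.symm w')} with hQ
  rw [Set.ncard_eq_toFinset_card' P, Set.ncard_eq_toFinset_card' Q]
  have hle : (actives (mpr I) (wpr I) (pull M)).card ≤
      (P.toFinset ∪ Q.toFinset.image M.symm).card := by
    refine Finset.card_le_card_of_injOn finProdFinEquiv ?_ finProdFinEquiv.injective.injOn
    intro m hm
    obtain ⟨m', h⟩ := mem_actives.1 hm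
    rw [sw_pull_iff] at h
    simp only [Finset.coe_union, Finset.coe_image, Set.coe_toFinset, Set.mem_union, Set.mem_image]
    rcases h with ⟨h1, h2⟩ | ⟨h1, h2⟩
    · exact Or.inl ⟨finProdFinEquiv m', h1, h2⟩
    · refine Or.inr ⟨M (finProdFinEquiv m), ⟨M (finProdFinEquiv m'), ?_, ?_⟩, by simp⟩
      · simpa using h1
      · simpa using h2
  refine hle.trans ((Finset.card_union_le _ _).trans ?_)
  have h5 : (Q.toFinset.image M.symm).card ≤ Q.toFinset.card := Finset.card_image_le
  omega

lemma actives_eq_empty (I : SM (N * 4)) (M : Equiv.Perm (Fin (N * 4)))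
    (h : I.ExchangeStable M) : actives (mpr I) (wpr I) (pull M) = ∅ := by
  rw [Finset.eq_empty_iff_forall_notMem]
  intro m hm
  obtain ⟨m', h1⟩ := mem_actives.1 hm
  rw [sw_pull_iff] at h1
  rcases h1 with ⟨h1, h2⟩ | ⟨h1, h2⟩
  · refine h.1 (blocks_two (a := finProdFinEquiv m) (b := finProdFinEquiv m') ?_ h1 h2)
    intro h3
    rw [h3] at h1; exact absurd h1 (lt_irrefl _)
  · refine h.2 (blocks_two (a := M (finProdFinEquiv m)) (b := M (finProdFinEquiv m')) ?_ ?_ ?_)
    · intro h3
      have h4 := M.injective h3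
      rw [h4] at h1; exact absurd h1 (lt_irrefl _)
    · simpa using h1
    · simpa using h2

lemma ces_of_colouring (hG : Codes N E G) (M : Equiv.Perm (Fin (N * 4))) (c : Fin N → Fin 3)
    (hM : pull M = matchOf c) (hc : ∀ u v, G.Adj u v → c u ≠ c v) :
    (inst hG).CoalitionExchangeStable M := fun k hk =>
  ⟨fun h => by
    have h1 := blocks_pull_men _ _ _ h
    rw [hM] at h1
    exact no_men_cycle (prefs hG) _ k hk h1, fun h => by
    have h1 := blocks_pull_women _ _ _ h
    rw [hM] at h1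
    exact no_women_cycle (prefs hG) _ hc k hk h1⟩

theorem exchange_iff_coalition (hG : Codes N E G) (M : Equiv.Perm (Fin (N * 4))) :
    (inst hG).ExchangeStable M ↔ (inst hG).CoalitionExchangeStable M := by
  constructor
  · intro h
    obtain ⟨h1, h2⟩ := eq_matchOf (prefs hG) (actives_eq_empty _ _ h)
    exact ces_of_colouring hG M _ h1 h2
  · exact fun h => h 2 le_rfl

/-- the coalition-exchange-stable matchings are the proper colourings with three colours -/
noncomputable def equivColoring (hG : Codes N E G) :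
    {M // (inst hG).CoalitionExchangeStable M} ≃ G.Coloring (Fin 3) where
  toFun M := SimpleGraph.Coloring.mk (col (pull M.1)) (fun {u v} huv =>
    (eq_matchOf (prefs hG) (actives_eq_empty _ _ (M.2 2 le_rfl))).2 u v huv)
  invFun c := ⟨push (matchOf c), ces_of_colouring hG _ c (pull_push _) fun u v huv => c.valid huv⟩
  left_inv M := Subtype.ext (by
    show push (matchOf (col (pull M.1))) = M.1
    rw [← (eq_matchOf (prefs hG) (actives_eq_empty _ _ (M.2 2 le_rfl))).1, push_pull])
  right_inv c := RelHom.ext fun v => by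
    show col (pull (push (matchOf c))) v = c v
    rw [pull_push, col_matchOf]

lemma equivColoring_apply (hG : Codes N E G)
    (M : {M // (inst hG).CoalitionExchangeStable M}) (v : Fin N) :
    ((equivColoring hG M v : Fin 3) : ℕ) = (M.1.symm (finProdFinEquiv (v, 0))).modNat := by
  have h1 := (eq_matchOf (prefs hG) (actives_eq_empty _ _ (M.2 2 le_rfl))).1
  have h2 : (pull M.1).symm (v, 0) = (v, (col (pull M.1) v).castSucc) := by
    conv_lhs => rw [h1]
    rw [matchOf_symm_apply, tau'_zero]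
  have h3 : ((pull M.1).symm (v, 0)).2 = (M.1.symm (finProdFinEquiv (v, 0))).modNat := rfl
  rw [← h3, h2]
  rfl

/-- the matching of a colouring has as many blocking pairs as there are monochromatic edges -/
theorem blockingPairs_push (hG : Codes N E G) (c : Fin N → Fin 3) :
    (inst hG).blockingPairs (push (matchOf c)) = monochromatic G c := by
  have hpp := pull_push (N := N) (matchOf c)
  rw [SM.blockingPairs, monochromatic]
  have h1 : {p : Fin (N * 4) × Fin (N * 4) | p.1 < p.2 ∧
      (inst hG).ManPrefers p.1 ((push (matchOf c)) p.2) ((push (matchOf c)) p.1) ∧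
      (inst hG).ManPrefers p.2 ((push (matchOf c)) p.1) ((push (matchOf c)) p.2)} = ∅ := by
    rw [Set.eq_empty_iff_forall_notMem]
    rintro p ⟨h1, h2, h3⟩
    have h4 := blocks_pull_men (inst hG) (push (matchOf c)) 2 (blocks_two h1.ne h2 h3)
    rw [hpp] at h4
    exact no_men_cycle (prefs hG) c 2 le_rfl h4
  have h2 : {p : Fin (N * 4) × Fin (N * 4) | p.1 < p.2 ∧
      (inst hG).WomanPrefers p.1 ((push (matchOf c)).symm p.2) ((push (matchOf c)).symm p.1) ∧
      (inst hG).WomanPrefers p.2 ((push (matchOf c)).symm p.1) ((push (matchOf c)).symm p.2)} =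
      (fun q : Fin N × Fin N => ((finProdFinEquiv (q.1, 0) : Fin (N * 4)),
        (finProdFinEquiv (q.2, 0) : Fin (N * 4)))) ''
        {p : Fin N × Fin N | p.1 < p.2 ∧ G.Adj p.1 p.2 ∧ c p.1 = c p.2} := by
    have hsw : ∀ x y : Fin N × Fin 4,
        ((inst hG).WomanPrefers (finProdFinEquiv x) ((push (matchOf c)).symm (finProdFinEquiv y))
          ((push (matchOf c)).symm (finProdFinEquiv x)) ∧
        (inst hG).WomanPrefers (finProdFinEquiv y) ((push (matchOf c)).symm (finProdFinEquiv x))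
          ((push (matchOf c)).symm (finProdFinEquiv y))) ↔
        x.2 = 0 ∧ y.2 = 0 ∧ G.Adj x.1 y.1 ∧ c x.1 = c y.1 := fun x y => by
      rw [← swap_women (prefs hG) c x y, wpr, wpr, ← hpp, apply_pull_symm, apply_pull_symm,
        hpp]
    ext ⟨a, b⟩
    obtain ⟨x, rfl⟩ := finProdFinEquiv.surjective a
    obtain ⟨y, rfl⟩ := finProdFinEquiv.surjective b
    rw [Set.mem_ofPred_eq, hsw]
    constructor
    · rintro ⟨h3, h4, h5, h6, h7⟩
      obtain ⟨v, i⟩ := x
      obtain ⟨w, j⟩ := y
      dsimp only at h4 h5 h6 h7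
      subst h4
      subst h5
      refine ⟨(v, w), ⟨?_, h6, h7⟩, rfl⟩
      have h8 : ((finProdFinEquiv (v, (0 : Fin 4)) : Fin (N * 4)) : ℕ) <
        (finProdFinEquiv (w, (0 : Fin 4)) : Fin (N * 4)) := h3
      simp only [finProdFinEquiv_apply_val, Fin.isValue, Fin.val_zero, zero_add] at h8
      exact Fin.lt_def.2 (by dsimp only; omega)
    · rintro ⟨⟨v, w⟩, ⟨h3, h4, h5⟩, h6⟩
      obtain ⟨h7, h8⟩ := Prod.ext_iff.1 h6
      dsimp only at h3 h4 h5 h7 h8
      have h7' := finProdFinEquiv.injective h7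
      have h8' := finProdFinEquiv.injective h8
      subst h7'
      subst h8'
      refine ⟨?_, rfl, rfl, h4, h5⟩
      rw [Fin.lt_def] at h3 ⊢
      simp only [finProdFinEquiv_apply_val, Fin.isValue, Fin.val_zero, zero_add]
      omega
  rw [h1, h2, Set.ncard_empty, zero_add, Set.ncard_image_of_injective]
  intro p q hpq
  obtain ⟨h3, h4⟩ := Prod.ext_iff.1 hpq
  have h5 := (Prod.ext_iff.1 (finProdFinEquiv.injective h3)).1
  have h6 := (Prod.ext_iff.1 (finProdFinEquiv.injective h4)).1
  exact Prod.ext h5 h6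

/-- every matching with few agents in blocking pairs is close to a proper colouring -/
theorem robust (hG : Codes N E G) (M : Equiv.Perm (Fin (N * 4))) :
    ∃ (c : Fin N → Fin 3) (X : Finset (Fin N)), X.card ≤ 8 * (inst hG).blockingAgents M ∧
      ∀ u v, G.Adj u v → c u = c v → u ∈ X ∨ v ∈ X := by
  refine ⟨col (pull M), bad (mpr (inst hG)) (wpr (inst hG)) (pull M), ?_, fun u v huv hc => ?_⟩
  · have h1 := card_bad_le (M := pull M) (prefs hG)
    have h2 := card_actives_le (inst hG) M
    omega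
  · by_contra hcon
    rw [not_or] at hcon
    exact col_ne (prefs hG) hcon.1 hcon.2 huv hc

end Pool.Agent.Lib.MP_bd0f13_lc.Rob
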