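import Pool.Agent.Lib.MP_bd0f13_lc.Rob.Count
import Pool.Agent.Lib.MP_bd0f13_lc.Inst

/-!
# The robust instance of a graph

The agents `4 v, 4 v + 1, 4 v + 2, 4 v + 3` form the group of the vertex `v`.
-/

namespace Pool.Agent.Lib.MP_bd0f13_lc.Rob

/-! ### lists: first choices, then a master list -/

/-- complete a list of first choices by the other agents in the order of a master list -/
def comp (base pre : List ℕ) : List ℕ :=
  pre ++ base.filter fun x => !(pre.any fun y => decide (y = x))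

lemma mem_rest' {base pre : List ℕ} {x : ℕ} :
    x ∈ base.filter (fun x => !(pre.any fun y => decide (y = x))) ↔ x ∈ base ∧ x ∉ pre := by
  simp only [List.mem_filter, Bool.not_eq_true', List.any_eq_false, decide_eq_true_eq]
  refine and_congr_right fun _ => ⟨fun h hx => h x hx rfl, fun h y hy hyx => h (hyx ▸ hy)⟩

lemma comp_perm {n : ℕ} {base pre : List ℕ} (hb : base.Perm (List.range n)) (hn : pre.Nodup)
    (hlt : ∀ x ∈ pre, x < n) : (comp base pre).Perm (List.range n) := by
  refine (List.perm_ext_iff_of_nodup ?_ List.nodup_range).2 fun x => ?_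
  · refine List.nodup_append.2 ⟨hn, (hb.nodup_iff.2 List.nodup_range).filter _, ?_⟩
    rintro a ha b hb rfl
    exact (mem_rest'.1 hb).2 ha
  · rw [comp, List.mem_append, mem_rest', hb.mem_iff, List.mem_range]
    by_cases h : x ∈ pre
    · simp [h, hlt x h]
    · simp [h]

lemma idxOf_comp_of_mem {base pre : List ℕ} {x : ℕ} (hx : x ∈ pre) :
    (comp base pre).idxOf x = pre.idxOf x := List.idxOf_append_of_mem hx

lemma idxOf_comp_lt {base pre : List ℕ} {x y : ℕ} (hx : x ∈ pre) (hy : y ∉ pre) :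
    (comp base pre).idxOf x < (comp base pre).idxOf y := by
  rw [comp, List.idxOf_append_of_mem hx, List.idxOf_append_of_notMem hy]
  have := List.idxOf_lt_length_iff.2 hx
  omega

lemma idxOf_comp_lt' {base pre : List ℕ} {f : ℕ → ℕ}
    (hp : base.Pairwise fun a b => f a < f b) {x y : ℕ} (hxb : x ∈ base) (hyb : y ∈ base)
    (hx : x ∉ pre) (hy : y ∉ pre) (hxy : f x < f y) :
    (comp base pre).idxOf x < (comp base pre).idxOf y := by
  rw [comp, List.idxOf_append_of_notMem hx, List.idxOf_append_of_notMem hy]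
  have h1 := hp.filter (fun x => !(pre.any fun y => decide (y = x)))
  set l := base.filter (fun x => !(pre.any fun y => decide (y = x))) with hl
  have hx' : x ∈ l := mem_rest'.2 ⟨hxb, hx⟩
  have hy' : y ∈ l := mem_rest'.2 ⟨hyb, hy⟩
  have hix := List.idxOf_lt_length_iff.2 hx'
  have hiy := List.idxOf_lt_length_iff.2 hy'
  by_contra hcon
  have h2 : l.idxOf y ≤ l.idxOf x := by omega
  have h3 : f l[l.idxOf y] ≤ f l[l.idxOf x] := by
    rcases h2.eq_or_lt with h4 | h4
    · exact le_of_eq (by congr 2)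
    · exact ((List.pairwise_iff_getElem.1 h1) _ _ hiy hix h4).le
  rw [List.getElem_idxOf, List.getElem_idxOf] at h3
  omega

lemma listPerm_comp_increasing {n : ℕ} {base pre : List ℕ} {f : ℕ → ℕ}
    (hp : base.Pairwise fun a b => f a < f b)
    (h : (comp base pre).Perm (List.range n)) (r s : Fin n) (hr : pre.length ≤ r)
    (hrs : r < s) : f (listPerm _ h r) < f (listPerm _ h s) := by
  have hl : (comp base pre).length = n := by rw [h.length_eq, List.length_range]
  have hr' : (r : ℕ) < (comp base pre).length := by rw [hl]; exact r.2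
  have hs' : (s : ℕ) < (comp base pre).length := by rw [hl]; exact s.2
  rw [listPerm_apply _ _ _ hr', listPerm_apply _ _ _ hs']
  have hrs' : (r : ℕ) < s := hrs
  unfold comp at hr' hs' ⊢
  rw [List.getElem_append_right hr, List.getElem_append_right (by omega)]
  exact (List.pairwise_iff_getElem.1 (hp.filter _)) _ _ _ _ (by omega)

/-! ### the lists -/

/-- master list of the men -/
def base (N : ℕ) : List ℕ :=
  (List.range N).flatMap (fun v => [1 + 4 * v, 2 + 4 * v, 3 + 4 * v]) ++
    (List.range N).map fun v => 0 + 4 * v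

/-- the order of the master list of the men -/
def key (n x : ℕ) : ℕ := if x % 4 = 0 then n + x else x

lemma base_pairwise (N : ℕ) : (base N).Pairwise fun a b => key (N * 4) a < key (N * 4) b := by
  rw [base, List.pairwise_append]
  refine ⟨?_, ?_, ?_⟩
  · rw [List.pairwise_flatMap]
    refine ⟨fun v _ => ?_, List.pairwise_lt_range.imp fun {v w} hvw x hx y hy => ?_⟩
    · simp only [List.pairwise_cons, List.mem_cons, List.not_mem_nil, or_false,
        forall_eq_or_imp, forall_eq, key]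
      refine ⟨⟨?_, ?_⟩, ?_, ?_⟩
      · rw [if_neg (by omega), if_neg (by omega)]; omega
      · rw [if_neg (by omega), if_neg (by omega)]; omega
      · rw [if_neg (by omega), if_neg (by omega)]; omega
      · simp
    · simp only [List.mem_cons, List.not_mem_nil, or_false] at hx hy
      rw [key, key, if_neg (by omega), if_neg (by omega)]
      omega
  · rw [List.pairwise_map]
    refine List.pairwise_lt_range.imp fun {v w} hvw => ?_
    rw [key, key, if_pos (by omega), if_pos (by omega)]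
    omega
  · intro x hx y hy
    simp only [List.mem_flatMap, List.mem_range, List.mem_cons, List.not_mem_nil, or_false,
      List.mem_map] at hx hy
    obtain ⟨v, hv, hx⟩ := hx
    obtain ⟨w, hw, rfl⟩ := hy
    rw [key, key, if_neg (by omega), if_pos (by omega)]
    omega

lemma mem_base {N x : ℕ} : x ∈ base N ↔ x < N * 4 := by
  simp only [base, List.mem_append, List.mem_flatMap, List.mem_range, List.mem_cons,
    List.not_mem_nil, or_false, List.mem_map]
  constructor
  · rintro (⟨v, hv, h⟩ | ⟨v, hv, h⟩) <;> omega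
  · intro h
    by_cases h4 : x % 4 = 0
    · exact Or.inr ⟨x / 4, by omega, by omega⟩
    · exact Or.inl ⟨x / 4, by omega, by omega⟩

lemma base_perm (N : ℕ) : (base N).Perm (List.range (N * 4)) := by
  refine (List.perm_ext_iff_of_nodup ?_ List.nodup_range).2 fun x => ?_
  · refine (base_pairwise N).imp fun {a b} h hab => ?_
    rw [hab] at h
    exact lt_irrefl _ h
  · rw [mem_base, List.mem_range]

/-- first choices of the man `(v, i)` -/
def manPre (v : ℕ) : ℕ → List ℕ
  | 0 => [1 + 4 * v, 0 + 4 * v, 2 + 4 * v, 3 + 4 * v]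
  | 1 => [1 + 4 * v, 2 + 4 * v, 0 + 4 * v, 3 + 4 * v]
  | 2 => [2 + 4 * v, 0 + 4 * v, 1 + 4 * v, 3 + 4 * v]
  | _ => [0 + 4 * v, 3 + 4 * v, 1 + 4 * v, 2 + 4 * v]

/-- the men `(u, c)`, `u` a neighbour of `v`, and then `(v, c)` -/
def block (N : ℕ) (E : List (ℕ × ℕ)) (v c : ℕ) : List ℕ :=
  (nbrs N E v).map (fun u => c + 4 * u) ++ [c + 4 * v]

/-- first choices of the woman `(v, j)` -/
def womanPre (N : ℕ) (E : List (ℕ × ℕ)) (v : ℕ) : ℕ → List ℕ
  | 0 => block N E v 0 ++ (block N E v 1 ++ (block N E v 2 ++ [3 + 4 * v]))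
  | 1 => [0 + 4 * v, 1 + 4 * v, 2 + 4 * v, 3 + 4 * v]
  | 2 => [0 + 4 * v, 1 + 4 * v, 2 + 4 * v, 3 + 4 * v]
  | _ => [3 + 4 * v, 0 + 4 * v, 1 + 4 * v, 2 + 4 * v]

variable {N : ℕ} {E : List (ℕ × ℕ)} {G : SimpleGraph (Fin N)}

lemma mem_block (hG : Codes N E G) (v : Fin N) {c x : ℕ} :
    x ∈ block N E v c ↔ ∃ u : Fin N, x = c + 4 * u ∧ (u = v ∨ G.Adj v u) := by
  rw [block, List.mem_append, List.mem_map, List.mem_singleton]
  constructor
  · rintro (⟨u, hu, rfl⟩ | rfl)
    · obtain ⟨u', rfl, h⟩ := (mem_nbrs hG v u).1 hu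
      exact ⟨u', rfl, Or.inr h⟩
    · exact ⟨v, rfl, Or.inl rfl⟩
  · rintro ⟨u, rfl, rfl | h⟩
    · exact Or.inr rfl
    · exact Or.inl ⟨u, (mem_nbrs hG v u).2 ⟨u, rfl, h⟩, rfl⟩

lemma mem_block_map (hG : Codes N E G) (v : Fin N) {c x : ℕ} :
    x ∈ (nbrs N E v).map (fun u => c + 4 * u) ↔ ∃ u : Fin N, x = c + 4 * u ∧ G.Adj v u := by
  rw [List.mem_map]
  constructor
  · rintro ⟨u, hu, rfl⟩
    obtain ⟨u', rfl, h⟩ := (mem_nbrs hG v u).1 hu
    exact ⟨u', rfl, h⟩
  · rintro ⟨u, rfl, h⟩
    exact ⟨u, (mem_nbrs hG v u).2 ⟨u, rfl, h⟩, rfl⟩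

lemma code_mem_block (hG : Codes N E G) (v : Fin N) (x : Fin N × Fin 4) {c : ℕ} (hc : c < 4) :
    (x.2 + 4 * x.1 : ℕ) ∈ block N E v c ↔ (x.2 : ℕ) = c ∧ (x.1 = v ∨ G.Adj v x.1) := by
  rw [mem_block hG]
  have := x.2.2
  constructor
  · rintro ⟨u, h1, h2⟩
    have h3 : x.1 = u := Fin.ext (by omega)
    exact ⟨by omega, h3 ▸ h2⟩
  · rintro ⟨h1, h2⟩
    exact ⟨x.1, by omega, h2⟩

lemma code_mem_block_map (hG : Codes N E G) (v : Fin N) (x : Fin N × Fin 4) {c : ℕ}
    (hc : c < 4) : (x.2 + 4 * x.1 : ℕ) ∈ (nbrs N E v).map (fun u => c + 4 * u) ↔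
      (x.2 : ℕ) = c ∧ G.Adj v x.1 := by
  rw [mem_block_map hG]
  have := x.2.2
  constructor
  · rintro ⟨u, h1, h2⟩
    have h3 : x.1 = u := Fin.ext (by omega)
    exact ⟨by omega, h3 ▸ h2⟩
  · rintro ⟨h1, h2⟩
    exact ⟨x.1, by omega, h2⟩

lemma nodup_block (hG : Codes N E G) (v : Fin N) (c : ℕ) : (block N E v c).Nodup := by
  refine List.nodup_append.2 ⟨(nodup_nbrs N E v).map fun a b h => ?_, List.nodup_singleton _, ?_⟩
  · beta_reduce at h; omega
  · rintro a ha b hb rfl
    obtain ⟨u, h1, h2⟩ := (mem_block_map hG v).1 ha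
    rw [List.mem_singleton] at hb
    have h3 : v = u := Fin.ext (by omega)
    exact h2.ne h3

lemma nodup_womanPre (hG : Codes N E G) (v : Fin N) (j : ℕ) : (womanPre N E v j).Nodup := by
  have hb : ∀ c c' : ℕ, c < 4 → c' < 4 → c ≠ c' → ∀ x, x ∈ block N E v c →
      x ∉ block N E v c' := fun c c' hc hc' hne x hx hx' => by
    obtain ⟨u, h1, -⟩ := (mem_block hG v).1 hx
    obtain ⟨u', h2, -⟩ := (mem_block hG v).1 hx'
    omega
  have h3 : ∀ c : ℕ, c < 3 → ∀ x, x ∈ block N E v c → x ≠ 3 + 4 * v := fun c hc x hx hx' => by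
    obtain ⟨u, h1, -⟩ := (mem_block hG v).1 hx
    omega
  rcases j with _ | _ | _ | j
  · refine List.nodup_append.2 ⟨nodup_block hG v 0, List.nodup_append.2
      ⟨nodup_block hG v 1, List.nodup_append.2 ⟨nodup_block hG v 2, List.nodup_singleton _, ?_⟩,
        ?_⟩, ?_⟩
    · rintro a ha b hb' rfl
      exact h3 2 (by omega) a ha (by simpa using hb')
    · rintro a ha b hb' rfl
      rcases List.mem_append.1 hb' with hb' | hb'
      · exact hb 1 2 (by omega) (by omega) (by omega) a ha hb'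
      · exact h3 1 (by omega) a ha (by simpa using hb')
    · rintro a ha b hb' rfl
      rcases List.mem_append.1 hb' with hb' | hb'
      · exact hb 0 1 (by omega) (by omega) (by omega) a ha hb'
      · rcases List.mem_append.1 hb' with hb' | hb'
        · exact hb 0 2 (by omega) (by omega) (by omega) a ha hb'
        · exact h3 0 (by omega) a ha (by simpa using hb')
  all_goals
    simp only [womanPre, List.nodup_cons, List.mem_cons, List.not_mem_nil, or_false,
      not_false_eq_true, List.nodup_nil, and_true]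
    omega

lemma mem_womanPre (hG : Codes N E G) (v : Fin N) (j : Fin 4) (x : Fin N × Fin 4) :
    (x.2 + 4 * x.1 : ℕ) ∈ womanPre N E v j ↔ x.1 = v ∨ Ins G (v, j) x := by
  have hx := x.2.2
  have h3 : x.2 = 3 ↔ (x.2 : ℕ) = 3 := by rw [Fin.ext_iff]; rfl
  rw [Ins, ne_eq, h3]
  fin_cases j
  · show (x.2 + 4 * x.1 : ℕ) ∈ block N E v 0 ++ (block N E v 1 ++ (block N E v 2 ++
      [3 + 4 * (v : ℕ)])) ↔ _
    rw [List.mem_append, List.mem_append, List.mem_append, List.mem_singleton,
      code_mem_block hG v x (by omega), code_mem_block hG v x (by omega),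
      code_mem_block hG v x (by omega)]
    simp only [Fin.zero_eta, Fin.isValue, true_and]
    constructor
    · rintro (⟨h1, h2 | h2⟩ | ⟨h1, h2 | h2⟩ | ⟨h1, h2 | h2⟩ | h1)
      · exact Or.inl h2
      · exact Or.inr ⟨by omega, h2⟩
      · exact Or.inl h2
      · exact Or.inr ⟨by omega, h2⟩
      · exact Or.inl h2
      · exact Or.inr ⟨by omega, h2⟩
      · exact Or.inl (Fin.ext (by omega))
    · rintro (h | ⟨h1, h2⟩)
      · have : (x.1 : ℕ) = v := by rw [h]
        have h4 : (x.2 : ℕ) = 0 ∨ (x.2 : ℕ) = 1 ∨ (x.2 : ℕ) = 2 ∨ (x.2 : ℕ) = 3 := by omega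
        rcases h4 with h4 | h4 | h4 | h4
        · exact Or.inl ⟨h4, Or.inl h⟩
        · exact Or.inr (Or.inl ⟨h4, Or.inl h⟩)
        · exact Or.inr (Or.inr (Or.inl ⟨h4, Or.inl h⟩))
        · exact Or.inr (Or.inr (Or.inr (by omega)))
      · have h4 : (x.2 : ℕ) = 0 ∨ (x.2 : ℕ) = 1 ∨ (x.2 : ℕ) = 2 := by omega
        rcases h4 with h4 | h4 | h4
        · exact Or.inl ⟨h4, Or.inr h2⟩
        · exact Or.inr (Or.inl ⟨h4, Or.inr h2⟩)
        · exact Or.inr (Or.inr (Or.inl ⟨h4, Or.inr h2⟩))
  all_goals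
    have h0 : ∀ P : Prop, (x.1 = v ∨ (False ∧ P)) ↔ (x.1 : ℕ) = v := fun P => by
      rw [false_and, or_false, Fin.ext_iff]
    simp only [womanPre, List.mem_cons, List.not_mem_nil, or_false, Fin.mk_one, Fin.isValue,
      Fin.reduceFinMk, Fin.reduceEq, one_ne_zero, h0]
    omega

lemma lt_of_mem_womanPre (hG : Codes N E G) (v : Fin N) (j : ℕ) :
    ∀ x ∈ womanPre N E v j, x < N * 4 := by
  have hb : ∀ c < 4, ∀ x ∈ block N E v c, x < N * 4 := fun c hc x hx => by
    obtain ⟨u, rfl, -⟩ := (mem_block hG v).1 hx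
    have := u.2
    omega
  have hv := v.2
  intro x hx
  rcases j with _ | _ | _ | j
  · rcases List.mem_append.1 hx with hx | hx
    · exact hb 0 (by omega) x hx
    · rcases List.mem_append.1 hx with hx | hx
      · exact hb 1 (by omega) x hx
      · rcases List.mem_append.1 hx with hx | hx
        · exact hb 2 (by omega) x hx
        · rw [List.mem_singleton] at hx; omega
  all_goals
    simp only [womanPre, List.mem_cons, List.not_mem_nil, or_false] at hx
    omega

lemma nodup_manPre (v i : ℕ) : (manPre v i).Nodup := by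
  rcases i with _ | _ | _ | i <;>
  · simp only [manPre, List.nodup_cons, List.mem_cons, List.not_mem_nil, or_false,
      not_false_eq_true, List.nodup_nil, and_true]
    omega

lemma mem_manPre {v i x : ℕ} : x ∈ manPre v i ↔
    x = 0 + 4 * v ∨ x = 1 + 4 * v ∨ x = 2 + 4 * v ∨ x = 3 + 4 * v := by
  rcases i with _ | _ | _ | i <;>
  · simp only [manPre, List.mem_cons, List.not_mem_nil, or_false]
    omega

lemma lt_of_mem_manPre (v : Fin N) (i : ℕ) : ∀ x ∈ manPre v i, x < N * 4 := by
  intro x hx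
  rw [mem_manPre] at hx
  have := v.2
  omega

lemma length_manPre (v i : ℕ) : (manPre v i).length = 4 := by
  rcases i with _ | _ | _ | i <;> rfl

lemma length_womanPre_le (hG : Codes N E G) (v : Fin N) (j : ℕ) :
    (womanPre N E v j).length ≤ 4 + 3 * (G.neighborSet v).ncard := by
  rcases j with _ | _ | _ | j
  · simp only [womanPre, block, List.length_append, List.length_map, List.length_singleton,
      length_nbrs hG v]
    omega
  all_goals simp [womanPre]

lemma code_ne {v : ℕ} {x : Fin N × Fin 4} (i : ℕ) (h : (x.1 : ℕ) ≠ v) :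
    (x.2 + 4 * x.1 : ℕ) ∉ manPre v i := by
  rw [mem_manPre]
  have := x.2.2
  omega

lemma code_mem (v i : ℕ) (a : Fin 4) : (a + 4 * v : ℕ) ∈ manPre v i := by
  rw [mem_manPre]
  have := a.2
  omega

lemma code_lt (x : Fin N × Fin 4) : (x.2 + 4 * x.1 : ℕ) < N * 4 := by
  have := x.1.2
  have := x.2.2
  omega

lemma idxOf_manPre (v : ℕ) (i a : Fin 4) : (manPre v i).idxOf (a + 4 * v : ℕ) = rho i a := by
  fin_cases i <;> fin_cases a <;> simp [manPre, rho]

lemma idxOf_womanPre (v : ℕ) (j a : Fin 4) (hj : j ≠ 0) :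
    (womanPre N E v j).idxOf (a + 4 * v : ℕ) = rhoW j a := by
  fin_cases j
  · exact absurd rfl hj
  all_goals fin_cases a <;> simp [womanPre, rhoW]

end Pool.Agent.Lib.MP_bd0f13_lc.Rob
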