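import Pool.Agent.Lib.MP_bd0f13_lc.Rob.Final
import Pool.Agent.Lib.MP_bd0f13_lc.Poly

/-!
# The robust reduction is computable in polynomial time
-/

namespace Pool.Agent.Lib.MP_bd0f13_lc.Rob

open Pool.Agent.Lib.MP_634427_lc

/-- the instance written down, computed from the number of vertices and the list of the edges -/
def reduction (p : ℕ × List (ℕ × ℕ)) : List (List ℕ) × List (List ℕ) :=
  ((List.range p.1).flatMap fun v => [comp (base p.1) (manPre v 0), comp (base p.1) (manPre v 1),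
      comp (base p.1) (manPre v 2), comp (base p.1) (manPre v 3)],
    (List.range p.1).flatMap fun v => [comp (List.range (p.1 * 4)) (womanPre p.1 p.2 v 0),
      comp (List.range (p.1 * 4)) (womanPre p.1 p.2 v 1),
      comp (List.range (p.1 * 4)) (womanPre p.1 p.2 v 2),
      comp (List.range (p.1 * 4)) (womanPre p.1 p.2 v 3)])

lemma ofFn_groups {N : ℕ} {β : Type} (f : Fin (N * 4) → β) (g : ℕ → ℕ → β)
    (h : ∀ (v : Fin N) (j : Fin 4), f (finProdFinEquiv (v, j)) = g v j) :
    List.ofFn f = (List.range N).flatMap fun v => [g v 0, g v 1, g v 2, g v 3] := by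
  rw [List.ofFn_mul, List.flatMap_def]
  congr 1
  refine List.ext_getElem (by simp) fun v h1 h2 => ?_
  have hv : v < N := by simpa using h1
  rw [List.getElem_ofFn, List.getElem_map, List.getElem_range]
  have h3 : ∀ j : Fin 4, f ⟨(⟨v, hv⟩ : Fin N) * 4 + j, by have := j.2; dsimp only; omega⟩ =
      g v j := fun j => by
    rw [← h ⟨v, hv⟩ j]
    congr 1
    refine Fin.ext ?_
    simp only [finProdFinEquiv_apply_val]
    omega
  simp only [List.ofFn_succ, List.ofFn_zero]
  refine congrArg₂ _ (h3 0) (congrArg₂ _ (h3 1) (congrArg₂ _ (h3 2) (congrArg₂ _ (h3 3) rfl)))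

lemma code_inst {N : ℕ} {E : List (ℕ × ℕ)} {G : SimpleGraph (Fin N)} (hG : Codes N E G) :
    reduction (N, E) = (inst hG).code := by
  rw [SM.code]
  refine Prod.ext ?_ ?_
  · refine (ofFn_groups _ (fun v i => comp (base N) (manPre v i)) fun v i => ?_).symm
    rw [inst_man, ofFn_listPerm]
  · refine (ofFn_groups _ (fun v i => comp (List.range (N * 4)) (womanPre N E v i))
      fun v i => ?_).symm
    rw [inst_woman, ofFn_listPerm]

section

variable {γ : Type} [Enc γ]

lemma pt_comp {b : γ → List ℕ} {pre : γ → List ℕ} (hb : PT b) (hp : PT pre) :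
    PT fun c => comp (b c) (pre c) :=
  PT.append hp (PT.filter (p := fun c x => !((pre c).any fun y => decide (y = x))) hb
    (PT.not (PT.any (p := fun (q : γ × ℕ) y => decide (y = q.2)) (hp.comp PT.fst)
      (PT.eqNat PT.snd (PT.snd' PT.fst)))))

lemma pt_num {v : γ → ℕ} (hv : PT v) (j : ℕ) : PT fun c => j + 4 * v c :=
  PT.add (PT.const j) (PT.mul (PT.const 4) hv)

lemma pt_four {a b c d : γ → ℕ} (ha : PT a) (hb : PT b) (hc : PT c) (hd : PT d) :
    PT fun x => [a x, b x, c x, d x] :=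
  PT.cons ha (PT.cons hb (PT.cons hc (PT.cons hd (PT.const []))))

lemma pt_base {N : γ → ℕ} (hN : PT N) : PT fun c => base (N c) :=
  PT.append (PT.flatMap (f := fun (_ : γ) v => [1 + 4 * v, 2 + 4 * v, 3 + 4 * v]) (PT.range hN)
      (PT.cons (pt_num PT.snd 1) (PT.cons (pt_num PT.snd 2) (PT.cons (pt_num PT.snd 3)
        (PT.const [])))))
    (PT.map (f := fun (_ : γ) v => 0 + 4 * v) (PT.range hN) (pt_num PT.snd 0))

lemma pt_manPre {v : γ → ℕ} (hv : PT v) (i : ℕ) : PT fun c => manPre (v c) i := by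
  rcases i with _ | _ | _ | i
  · exact pt_four (pt_num hv 1) (pt_num hv 0) (pt_num hv 2) (pt_num hv 3)
  · exact pt_four (pt_num hv 1) (pt_num hv 2) (pt_num hv 0) (pt_num hv 3)
  · exact pt_four (pt_num hv 2) (pt_num hv 0) (pt_num hv 1) (pt_num hv 3)
  · exact pt_four (pt_num hv 0) (pt_num hv 3) (pt_num hv 1) (pt_num hv 2)

lemma pt_block {N : γ → ℕ} {E : γ → List (ℕ × ℕ)} {v : γ → ℕ} (hN : PT N) (hE : PT E) (hv : PT v)
    (j : ℕ) : PT fun c => block (N c) (E c) (v c) j :=
  PT.append (PT.map (f := fun (_ : γ) u => j + 4 * u) (pt_nbrs hN hE hv) (pt_num PT.snd j))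
    (PT.cons (pt_num hv j) (PT.const []))

lemma pt_womanPre {N : γ → ℕ} {E : γ → List (ℕ × ℕ)} {v : γ → ℕ} (hN : PT N) (hE : PT E)
    (hv : PT v) (j : ℕ) : PT fun c => womanPre (N c) (E c) (v c) j := by
  rcases j with _ | _ | _ | j
  · exact PT.append (pt_block hN hE hv 0) (PT.append (pt_block hN hE hv 1)
      (PT.append (pt_block hN hE hv 2) (PT.cons (pt_num hv 3) (PT.const []))))
  · exact pt_four (pt_num hv 0) (pt_num hv 1) (pt_num hv 2) (pt_num hv 3)
  · exact pt_four (pt_num hv 0) (pt_num hv 1) (pt_num hv 2) (pt_num hv 3)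
  · exact pt_four (pt_num hv 3) (pt_num hv 0) (pt_num hv 1) (pt_num hv 2)

lemma pt_four' {a b c d : γ → List ℕ} (ha : PT a) (hb : PT b) (hc : PT c) (hd : PT d) :
    PT fun x => [a x, b x, c x, d x] :=
  PT.cons ha (PT.cons hb (PT.cons hc (PT.cons hd (PT.const []))))

end

theorem pt_reduction : PT reduction := by
  have h4 : PT fun q : (ℕ × List (ℕ × ℕ)) × ℕ => List.range (q.1.1 * 4) :=
    PT.range (PT.mul (PT.fst' PT.fst) (PT.const 4))
  have hb : PT fun q : (ℕ × List (ℕ × ℕ)) × ℕ => base q.1.1 := pt_base (PT.fst' PT.fst)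
  refine PT.pair ?_ ?_
  · refine PT.flatMap (f := fun (p : ℕ × List (ℕ × ℕ)) v => [comp (base p.1) (manPre v 0),
      comp (base p.1) (manPre v 1), comp (base p.1) (manPre v 2), comp (base p.1) (manPre v 3)])
      (PT.range PT.fst) ?_
    exact pt_four' (pt_comp hb (pt_manPre PT.snd 0)) (pt_comp hb (pt_manPre PT.snd 1))
      (pt_comp hb (pt_manPre PT.snd 2)) (pt_comp hb (pt_manPre PT.snd 3))
  · refine PT.flatMap (f := fun (p : ℕ × List (ℕ × ℕ)) v =>
      [comp (List.range (p.1 * 4)) (womanPre p.1 p.2 v 0),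
        comp (List.range (p.1 * 4)) (womanPre p.1 p.2 v 1),
        comp (List.range (p.1 * 4)) (womanPre p.1 p.2 v 2),
        comp (List.range (p.1 * 4)) (womanPre p.1 p.2 v 3)]) (PT.range PT.fst) ?_
    have hw : ∀ j, PT fun q : (ℕ × List (ℕ × ℕ)) × ℕ => womanPre q.1.1 q.1.2 q.2 j := fun j =>
      pt_womanPre (PT.fst' PT.fst) (PT.snd' PT.fst) PT.snd j
    exact pt_four' (pt_comp h4 (hw 0)) (pt_comp h4 (hw 1)) (pt_comp h4 (hw 2))
      (pt_comp h4 (hw 3))

/-- behind their first entries the lists are master lists -/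
lemma man_master {N : ℕ} {E : List (ℕ × ℕ)} {G : SimpleGraph (Fin N)} (hG : Codes N E G)
    (m r s : Fin (N * 4)) (hr : 4 ≤ (r : ℕ)) (hrs : r < s) :
    (listPerm (base N) (base_perm N)).symm ((inst hG).man m r) <
      (listPerm (base N) (base_perm N)).symm ((inst hG).man m s) := by
  obtain ⟨⟨v, i⟩, rfl⟩ := finProdFinEquiv.surjective m
  rw [inst_man, listPerm_lt]
  refine listPerm_comp_increasing (f := (base N).idxOf) ?_ _ r s
    (by rw [length_manPre]; exact hr) hrs
  have hn : (base N).Nodup := (base_perm N).nodup_iff.2 List.nodup_range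
  rw [List.pairwise_iff_getElem]
  intro i j hi hj hij
  rw [List.Nodup.idxOf_getElem hn, List.Nodup.idxOf_getElem hn]
  exact hij

lemma woman_master {N : ℕ} {E : List (ℕ × ℕ)} {G : SimpleGraph (Fin N)} (hG : Codes N E G)
    (v : Fin N) (j : Fin 4) (r s : Fin (N * 4)) (hr : 4 + 3 * (G.neighborSet v).ncard ≤ (r : ℕ))
    (hrs : r < s) : (inst hG).woman (finProdFinEquiv (v, j)) r <
      (inst hG).woman (finProdFinEquiv (v, j)) s := by
  rw [inst_woman, Fin.lt_def]
  exact listPerm_comp_increasing (f := id) List.pairwise_lt_range _ r s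
    ((length_womanPre_le hG v j).trans hr) hrs

end Pool.Agent.Lib.MP_bd0f13_lc.Rob
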